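import Pool.Agent.P.MP_a3bdf6_co.Defs
import Pool.Agent.P.MP_a3bdf6_co.Split
import Pool.Agent.P.MP_a3bdf6_co.Subdiv

namespace Pool.Agent.Results.MP_a3bdf6_co.Maderian

open Pool.Agent.P.MP_a3bdf6_co

/-- Every disjoint union of orientations of cycles is out-degree maderian. -/
theorem result (m : ℕ) (n : Fin m → ℕ) (o : (i : Fin m) → Fin (n i + 2) → Bool) :
    ∃ k : ℕ, ∀ (V : Type) [Fintype V] [Nonempty V] (D : Digraph V),
      (∀ v, ¬ D.Adj v v) → (∀ v, k ≤ {w | D.Adj v w}.ncard) →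
      ContainsSubdivision (cycleUnion n o) D := by
  classical
  obtain ⟨c, b, h1⟩ := fam_subdiv n o
  obtain ⟨K, h2⟩ := exists_fam b m c
  refine ⟨K, fun V _ _ D _ hd => h1 V D ((h2 V D.Adj Finset.univ ⟨Finset.univ_nonempty, ?_⟩).mono
    (Set.subset_univ _))⟩
  intro v _
  have := hd v
  rw [Set.ncard_eq_toFinset_card'] at this
  convert this using 2
  ext w
  simp

end Pool.Agent.Results.MP_a3bdf6_co.Maderian
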