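import Pool.Agent.P.MP_a3bdf6_co.UFin

namespace Pool.Agent.Results.MP_a3bdf6_co.UnionClosure

open Pool.Agent.P.MP_a3bdf6_co

/-- Oriented cycles and in-arborescences can be added to an out-degree maderian digraph `F` under
two hypotheses on `F`. -/
theorem result (m : ℕ) (n : Fin m → ℕ) (o : (i : Fin m) → Fin (n i + 2) → Bool)
    (γ : Type) [Fintype γ] (T : Digraph γ) (hT : InForest T)
    (α : Type) [Fintype α] (F : Digraph α) (hl : ∀ v, ¬ F.Adj v v) (h : Maderian F)
    (hF : (Nonempty γ ∨ ∃ i, n i = 0 ∨ ∀ x y, o i x = o i y) → Friendly F)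
    (hM : (∃ i, ¬ (n i = 0 ∨ ∀ x y, o i x = o i y)) → ∀ M, Maderian (copies M F)) :
    Maderian (dsum (dsum F (cycleUnion n o)) T) :=
  (mad_iff _).2 (closure n o ((mad_iff _).1 h) hT.fun hT.2 (fun k => (hF k).fr hl)
    fun k M => (mad_iff _).1 (hM k M))

end Pool.Agent.Results.MP_a3bdf6_co.UnionClosure
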